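import Mathlib
import Pool.Agent.Lib.MP98e33a.Final

open Set Filter Topology MeasureTheory
open scoped ENNReal NNReal

namespace Pool.Agent.Results.MP_98e33a_an.LevelHalf

/-- The asymptotic set of `x` for a map `L` of the unit interval: all `y ∈ [0, 1]` with
`|L^n x - L^n y| → 0`. -/
def asymptoticSet (L : ℝ → ℝ) (x : ℝ) : Set ℝ :=
  {y | y ∈ Icc (0 : ℝ) 1 ∧ Tendsto (fun n => |L^[n] x - L^[n] y|) atTop (𝓝 0)}

/-- The level set of all `x ∈ [0, 1]` whose asymptotic set has Hausdorff dimension `α`. -/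
def Theta (L : ℝ → ℝ) (α : ℝ≥0∞) : Set ℝ :=
  {x | x ∈ Icc (0 : ℝ) 1 ∧ dimH (asymptoticSet L x) = α}

/-- For the Lüroth map `L` (with any value in `[0, 1]` at the point `1`), the set of all `x` whose
asymptotic set has Hausdorff dimension `1 / 2` has Hausdorff dimension `1`. -/
theorem result (L : ℝ → ℝ) (h0 : L 0 = 0) (h1 : L 1 ∈ Icc (0 : ℝ) 1)
    (hL : ∀ n : ℕ, 1 ≤ n → ∀ x ∈ Ico (1 / ((n : ℝ) + 1)) (1 / (n : ℝ)),
      L x = n * (n + 1) * x - n) :
    dimH (Theta L (1 / 2)) = 1 := by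
  have hT : Pool.Agent.Lib.MP98e33a.IsLuroth L := ⟨h0, h1, hL⟩
  have hvol : volume (Icc (0 : ℝ) 1 \ Theta L (1 / 2)) = 0 :=
    Pool.Agent.Lib.MP98e33a.volume_main hT
  apply le_antisymm
  · refine (dimH_mono (subset_univ _)).trans ?_
    rw [Real.dimH_univ]
  · by_contra hcon
    push Not at hcon
    have h2 := hausdorffMeasure_of_dimH_lt (d := 1) (s := Theta L (1 / 2)) (by simpa using hcon)
    have h3 : volume (Theta L (1 / 2)) = 0 := by
      rw [← hausdorffMeasure_real]
      simpa using h2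
    have h4 : volume (Icc (0 : ℝ) 1) ≤ 0 := by
      calc volume (Icc (0 : ℝ) 1)
          ≤ volume ((Icc (0 : ℝ) 1 \ Theta L (1 / 2)) ∪ Theta L (1 / 2)) := by
            apply measure_mono
            intro x hx
            by_cases h : x ∈ Theta L (1 / 2)
            · exact Or.inr h
            · exact Or.inl ⟨hx, h⟩
        _ ≤ 0 := by
            rw [measure_union_null hvol h3]
    rw [Real.volume_Icc] at h4
    simp at h4

end Pool.Agent.Results.MP_98e33a_an.LevelHalf
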